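import Pool.Graph.R_pool_sql_team_seeded_47a924f7.Results.MP_7689c7_co.EffectiveWeightBound

/-!
# Effective weight of numerical semigroups: the case of equality

`m` is the multiplicity of `S`, `Q` and `P` are the sets of the `u < m` with `m + u ∈ S` and
`m + u ∉ S`.  The inequality of the library is `∑ nb b ≤ |P| (|Q| + Y)`, with `Y` the number of
gaps above `2m`.  Here the equality case with `Y > 0` is analysed.
-/

set_option autoImplicit false

namespace Pool.Agent.KS6_62.Ew

open Finset Classical
open Pool.Agent.Results.MP_7689c7_co.EffectiveWeightBound (IsMinGen genus ew nb P Q W nb_mono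
  first_elems card_QP mul_mem_S gen_inj up_mem gen_ge low_gens card_X q_le)

variable (S : AddSubmonoid ℕ) (m : ℕ)

/-- The number of elements of `Q` which are not below `c`. -/
noncomputable def ab (c : ℕ) : ℕ :=
  (Q S m).card - ((Q S m).filter (fun u => u < c)).card

theorem ab_anti {c c' : ℕ} (h : c ≤ c') : ab S m c' ≤ ab S m c := by
  unfold ab
  apply Nat.sub_le_sub_left
  apply card_le_card
  intro u hu
  simp only [mem_filter] at hu ⊢
  exact ⟨hu.1, by omega⟩

theorem lt_of_ab_zero {c : ℕ} (h : ab S m c = 0) : ∀ u ∈ Q S m, u < c := by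
  intro u hu
  have h1 : ((Q S m).filter (fun u => u < c)) = Q S m := by
    apply Finset.eq_of_subset_of_card_le (filter_subset _ _)
    unfold ab at h
    omega
  rw [← h1] at hu
  exact (mem_filter.1 hu).2

theorem mem_Q {u : ℕ} : u ∈ Q S m ↔ u < m ∧ m + u ∈ S := by
  simp only [Q, mem_filter, mem_range]

theorem mem_P {u : ℕ} : u ∈ P S m ↔ u < m ∧ m + u ∉ S := by
  simp only [P, mem_filter, mem_range]

theorem mem_W {c : ℕ} : c ∈ W S m ↔ c ∈ P S m ∧ ∃ u ∈ Q S m, ∃ v ∈ Q S m, u + v = c := by
  simp only [W, mem_filter]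

theorem mem_Q_of_notMem_P {u : ℕ} (hu : u < m) (h : u ∉ P S m) : u ∈ Q S m := by
  rw [mem_P] at h
  rw [mem_Q]
  refine ⟨hu, ?_⟩
  by_contra hh
  exact h ⟨hu, hh⟩

theorem notMem_P_of_mem_Q {u : ℕ} (h : u ∈ Q S m) : u ∉ P S m := by
  intro h2
  exact ((mem_P S m).1 h2).2 ((mem_Q S m).1 h).2

theorem zero_mem_Q (hm0 : 0 < m) (hmS : m ∈ S) : 0 ∈ Q S m := by
  rw [mem_Q]
  exact ⟨hm0, by simpa using hmS⟩

/-- The structure of `P` and `Q` in the case of equality, with gaps above `2m`. -/
theorem eq_struct (hm0 : 0 < m) (hmS : m ∈ S) (hmin : ∀ x, 0 < x → x < m → x ∉ S)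
    (G2 : Finset ℕ) (hG2 : ∀ b, b ∈ G2 ↔ b ∉ S ∧ 2 * m < b) (hne : G2.Nonempty)
    (hstar : ∑ c ∈ P S m, ab S m c + (P S m).card * G2.card ≤ ∑ b ∈ G2, nb S b) :
    ((∀ c ∈ P S m, ab S m c = 0) ∧ (∀ b ∈ G2, nb S b = (P S m).card)) ∨
    (∃ T : Finset ℕ, ∃ p : ℕ, T ⊆ P S m \ W S m ∧ 1 ≤ p ∧ T.Nonempty ∧ (∀ c ∈ T, ab S m c = p) ∧
      (∀ c ∈ P S m, c ∉ T → ab S m c = 0) ∧
      T.card + (P S m).card + p + (W S m).card ≤ m) := by
  obtain ⟨F, hFG, hFmax⟩ := G2.exists_max_image (fun b => b) hne
  obtain ⟨hFS, hF2⟩ := (hG2 F).1 hFG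
  rcases Nat.lt_or_ge (P S m).card (nb S F) with hlt | hge
  · right
    set p := nb S F - (P S m).card with hp
    set B := G2.filter (fun b => (P S m).card < nb S b) with hBd
    have hB : ∀ b ∈ B, b ∉ S ∧ 2 * m < b ∧ b ≤ F ∧ F < b + m := by
      intro b hb
      simp only [hBd, mem_filter] at hb
      refine ⟨((hG2 b).1 hb.1).1, ((hG2 b).1 hb.1).2, hFmax b hb.1, ?_⟩
      by_contra hh
      push Not at hh
      have := low_gens S m hm0 hmS hFS hh
      omega
    have hX := card_X S m hm0 hmS hmin B hB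
    have h1 : ∑ b ∈ G2, nb S b ≤ (P S m).card * G2.card + B.card * p := by
      have h2 : ∀ b ∈ G2, nb S b ≤ (P S m).card + (if (P S m).card < nb S b then p else 0) := by
        intro b hb
        split_ifs with h
        · have h3 : nb S b ≤ nb S F := nb_mono S (hFmax b hb)
          omega
        · omega
      refine (sum_le_sum h2).trans ?_
      rw [sum_add_distrib, sum_const, smul_eq_mul, ← sum_filter, sum_const, smul_eq_mul,
        mul_comm (P S m).card]
    have hR : B.card ≤ (P S m \ W S m).card := by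
      apply card_le_card_of_injOn (fun b => b % m)
      · intro b hb
        obtain ⟨b1, b2, b3, b4⟩ := hB b (mem_coe.1 hb)
        have hdm := Nat.div_add_mod b m
        have hd1 : 2 ≤ b / m := by
          rw [Nat.le_div_iff_mul_le hm0]
          omega
        have h4 : m * 2 ≤ m * (b / m) := Nat.mul_le_mul_left _ hd1
        have hmod := Nat.mod_lt b hm0
        simp only [coe_sdiff, Set.mem_sdiff, mem_coe]
        constructor
        · rw [mem_P]
          refine ⟨hmod, fun h => b1 ?_⟩
          apply up_mem S m hmS h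
          · omega
          · simp
        · intro h
          rw [mem_W] at h
          obtain ⟨-, u, hu, v, hv, huv⟩ := h
          rw [mem_Q] at hu hv
          have h := S.add_mem hu.2 hv.2
          apply b1
          apply up_mem S m hmS h
          · omega
          · have e : m + u + (m + v) = m * 2 + b % m := by omega
            rw [e, Nat.mul_add_mod, Nat.mod_mod]
      · intro b hb b' hb' h
        simp only at h
        obtain ⟨b1, b2, b3, b4⟩ := hB b (mem_coe.1 hb)
        obtain ⟨c1, c2, c3, c4⟩ := hB b' (mem_coe.1 hb')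
        rcases lt_trichotomy b b' with hl | hl | hl
        · have h2 : m ∣ b' - b := (Nat.modEq_iff_dvd' hl.le).mp h
          have h3 := Nat.le_of_dvd (by omega) h2
          omega
        · exact hl
        · have h2 : m ∣ b - b' := (Nat.modEq_iff_dvd' hl.le).mp h.symm
          have h3 := Nat.le_of_dvd (by omega) h2
          omega
    obtain ⟨T, hTR, hTc, hT⟩ := first_elems (P S m \ W S m) B.card hR
    have hTP : T ⊆ P S m := hTR.trans sdiff_subset
    have h5 : ∀ c ∈ T, p ≤ ab S m c := by
      intro c hc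
      unfold ab
      have hcR := mem_sdiff.1 (hTR hc)
      have h6 := q_le S m c hcR.1 hcR.2
      have h7 : ((P S m).filter (fun x => x ≤ c)).card ≤
          (W S m).card + ((P S m \ W S m).filter (fun x => x ≤ c)).card := by
        refine le_trans (card_le_card ?_) (card_union_le _ _)
        intro x hx
        simp only [mem_filter] at hx
        by_cases hxW : x ∈ W S m
        · exact mem_union_left _ hxW
        · apply mem_union_right
          simp only [mem_filter, mem_sdiff]
          exact ⟨⟨hx.1, hxW⟩, hx.2⟩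
      have h8 := hT c hc
      have h9 := card_QP S m
      omega
    have hsplit : ∑ c ∈ P S m \ T, ab S m c + ∑ c ∈ T, ab S m c = ∑ c ∈ P S m, ab S m c :=
      sum_sdiff hTP
    have h6 : ∑ c ∈ T, p ≤ ∑ c ∈ T, ab S m c := sum_le_sum h5
    have h6' : ∑ c ∈ T, p = B.card * p := by rw [sum_const, smul_eq_mul, hTc]
    have h7 : ∑ c ∈ T, p = ∑ c ∈ T, ab S m c := by omega
    have h8 : ∑ c ∈ P S m \ T, ab S m c = 0 := by omega
    have hFB : F ∈ B := by
      rw [hBd, mem_filter]
      exact ⟨hFG, hlt⟩
    have hBpos : 0 < B.card := card_pos.2 ⟨F, hFB⟩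
    refine ⟨T, p, hTR, by omega, card_pos.1 (by omega), ?_, ?_, by omega⟩
    · intro c hc
      exact ((sum_eq_sum_iff_of_le h5).1 h7 c hc).symm
    · intro c hc hcT
      exact (sum_eq_zero_iff.1 h8) c (mem_sdiff.2 ⟨hc, hcT⟩)
  · left
    have h1 : ∀ b ∈ G2, nb S b ≤ (P S m).card := fun b hb => (nb_mono S (hFmax b hb)).trans hge
    have h2 : ∑ b ∈ G2, nb S b ≤ ∑ b ∈ G2, (P S m).card := sum_le_sum h1
    have h3 : ∑ b ∈ G2, (P S m).card = (P S m).card * G2.card := by
      rw [sum_const, smul_eq_mul, mul_comm]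
    have h4 : ∑ c ∈ P S m, ab S m c = 0 := by omega
    have h5 : ∑ b ∈ G2, nb S b = ∑ b ∈ G2, (P S m).card := by omega
    exact ⟨fun c hc => (sum_eq_zero_iff.1 h4) c hc, fun b hb => (sum_eq_sum_iff_of_le h1).1 h5 b hb⟩

/-- The second case: at most two gaps between `m` and `2m`. -/
theorem case_two (hm0 : 0 < m) (hmS : m ∈ S) (T : Finset ℕ) (p : ℕ) (hTsub : T ⊆ P S m \ W S m)
    (hp : 1 ≤ p) (hTne : T.Nonempty) (h1 : ∀ c ∈ T, ab S m c = p)
    (h0 : ∀ c ∈ P S m, c ∉ T → ab S m c = 0)
    (hc : T.card + (P S m).card + p + (W S m).card ≤ m) : (P S m).card ≤ 2 := by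
  have hz := zero_mem_Q S m hm0 hmS
  obtain ⟨c, hcT⟩ := hTne
  have hcP : c ∈ P S m := (mem_sdiff.1 (hTsub hcT)).1
  have hc0 : c ≠ 0 := by
    rintro rfl
    exact notMem_P_of_mem_Q S m hz hcP
  have hcm : c < m := ((mem_P S m).1 hcP).1
  have hTW : ∀ x ∈ T, x ∉ W S m := fun x hx => (mem_sdiff.1 (hTsub hx)).2
  -- `1 ∈ P`
  have h1P : 1 ∈ P S m := by
    by_contra hcon
    have h1Q := mem_Q_of_notMem_P S m (by omega : 1 < m) hcon
    obtain ⟨c0, hc0P, hc0min⟩ := (P S m).exists_min_image (fun x => x) ⟨c, hcP⟩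
    have hlt0 : c0 < m := ((mem_P S m).1 hc0P).1
    have hc00 : c0 ≠ 0 := by
      rintro rfl
      exact notMem_P_of_mem_Q S m hz hc0P
    have hc01 : c0 ≠ 1 := by
      rintro rfl
      exact hcon hc0P
    have h2 : c0 - 1 ∈ Q S m := by
      apply mem_Q_of_notMem_P S m (by omega)
      intro h3
      have := hc0min _ h3
      omega
    have h3 : c0 ∈ W S m := by
      rw [mem_W]
      exact ⟨hc0P, 1, h1Q, c0 - 1, h2, by omega⟩
    have h4 : c0 ∉ T := fun h => hTW c0 h h3
    have h5 := h0 c0 hc0P h4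
    have h6 := ab_anti S m (hc0min c hcP)
    have h7 := h1 c hcT
    omega
  have h1T : 1 ∈ T := by
    by_contra hcon
    have h5 := h0 1 h1P hcon
    have h6 := ab_anti S m (show 1 ≤ c by omega)
    have h7 := h1 c hcT
    omega
  have hab1 := h1 1 h1T
  have hf : (Q S m).filter (fun u => u < 1) = {0} := by
    ext u
    simp only [mem_filter, mem_singleton]
    constructor
    · rintro ⟨-, h⟩
      omega
    · rintro rfl
      exact ⟨hz, by omega⟩
  have hQ : (Q S m).card = p + 1 := by
    unfold ab at hab1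
    rw [hf, card_singleton] at hab1
    omega
  have hQP := card_QP S m
  have hTpos : 0 < T.card := card_pos.2 ⟨c, hcT⟩
  have hT1 : T.card = 1 := by omega
  have hW0 : (W S m).card = 0 := by omega
  have hW : ∀ x, x ∉ W S m := by
    rw [card_eq_zero] at hW0
    intro x
    rw [hW0]
    simp
  have hTeq : ∀ x ∈ T, x = 1 := by
    obtain ⟨y, hy⟩ := card_eq_one.1 hT1
    rw [hy] at h1T ⊢
    rw [mem_singleton] at h1T
    intro x hx
    rw [mem_singleton] at hx
    omega
  have hab0 : ∀ x ∈ P S m, x ≠ 1 → ab S m x = 0 := fun x hx hx1 =>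
    h0 x hx (fun h => hx1 (hTeq x h))
  by_contra hcon
  push Not at hcon
  have h2Q : 2 ∈ Q S m := by
    apply mem_Q_of_notMem_P S m (by omega)
    intro h2P
    have h3 := lt_of_ab_zero S m (hab0 2 h2P (by omega))
    have h4 : Q S m ⊆ {0} := by
      intro u hu
      have h5 := h3 u hu
      have h6 : u ≠ 1 := by
        rintro rfl
        exact notMem_P_of_mem_Q S m hu h1P
      rw [mem_singleton]
      omega
    have h5 := card_le_card h4
    rw [card_singleton] at h5
    omega
  have h4Q : 4 ∈ Q S m := by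
    apply mem_Q_of_notMem_P S m (by omega)
    intro h4P
    exact hW 4 ((mem_W S m).2 ⟨h4P, 2, h2Q, 2, h2Q, rfl⟩)
  have h3Q : 3 ∈ Q S m := by
    apply mem_Q_of_notMem_P S m (by omega)
    intro h3P
    have := lt_of_ab_zero S m (hab0 3 h3P (by omega)) 4 h4Q
    omega
  have hne' : ((P S m).erase 1).Nonempty := by
    apply card_pos.1
    rw [card_erase_of_mem h1P]
    omega
  obtain ⟨c1, hc1, hc1min⟩ := ((P S m).erase 1).exists_min_image (fun x => x) hne'
  rw [mem_erase] at hc1
  have hc1m : c1 < m := ((mem_P S m).1 hc1.2).1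
  have hn0 : c1 ≠ 0 := by
    rintro rfl
    exact notMem_P_of_mem_Q S m hz hc1.2
  have hn2 : c1 ≠ 2 := by
    rintro rfl
    exact notMem_P_of_mem_Q S m h2Q hc1.2
  have hn3 : c1 ≠ 3 := by
    rintro rfl
    exact notMem_P_of_mem_Q S m h3Q hc1.2
  have hn4 : c1 ≠ 4 := by
    rintro rfl
    exact notMem_P_of_mem_Q S m h4Q hc1.2
  have hn1 := hc1.1
  have h6 : c1 - 2 ∈ Q S m := by
    apply mem_Q_of_notMem_P S m (by omega)
    intro h7
    have h8 := hc1min (c1 - 2) (mem_erase.2 ⟨by omega, h7⟩)
    omega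
  exact hW c1 ((mem_W S m).2 ⟨hc1.2, 2, h2Q, c1 - 2, h6, by omega⟩)

/-- If no element of `Q` is above an element of `P`, then `Q` is an initial segment. -/
theorem Q_eq_range (h0 : ∀ c ∈ P S m, ab S m c = 0) : Q S m = range (Q S m).card := by
  apply eq_of_subset_of_card_le
  · intro u hu
    have h1 : range (u + 1) ⊆ Q S m := by
      intro v hv
      rw [mem_range] at hv
      have hum := ((mem_Q S m).1 hu).1
      apply mem_Q_of_notMem_P S m (by omega)
      intro hP
      have := lt_of_ab_zero S m (h0 v hP) u hu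
      omega
    have h2 := card_le_card h1
    rw [card_range] at h2
    rw [mem_range]
    omega
  · rw [card_range]

/-- The first case. -/
theorem case_one (hm0 : 0 < m) (hmS : m ∈ S) (hmin : ∀ x, 0 < x → x < m → x ∉ S)
    (G2 : Finset ℕ) (hG2 : ∀ b, b ∈ G2 ↔ b ∉ S ∧ 2 * m < b) (hne : G2.Nonempty)
    (h0 : ∀ c ∈ P S m, ab S m c = 0) (hl : ∀ b ∈ G2, nb S b = (P S m).card) :
    (2 ≤ (Q S m).card → (Q S m).card ≤ (P S m).card ∧ G2.card ≤ 1) ∧
    ((Q S m).card = 1 → G2.card ≤ 2 ∨ (P S m).card ≤ 1) := by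
  have hQr := Q_eq_range S m h0
  have hQP := card_QP S m
  set q := (Q S m).card with hq
  have hz := zero_mem_Q S m hm0 hmS
  have hq1 : 1 ≤ q := card_pos.2 ⟨0, hz⟩
  have hQS : ∀ u, u < q → m + u ∈ S := by
    intro u hu
    have : u ∈ Q S m := by
      rw [hQr, mem_range]
      exact hu
    exact ((mem_Q S m).1 this).2
  obtain ⟨b1, hb1G, hb1min⟩ := G2.exists_min_image (fun x => x) hne
  obtain ⟨hb1S, hb1m⟩ := (hG2 b1).1 hb1G
  have hlow : ∀ x, 2 * m ≤ x → x < b1 → x ∈ S := by
    intro x hx1 hx2
    by_contra hxS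
    have hx3 : x ≠ 2 * m := by
      rintro rfl
      apply hxS
      rw [two_mul]
      exact S.add_mem hmS hmS
    have := hb1min x ((hG2 x).2 ⟨hxS, by omega⟩)
    omega
  have hb13 : b1 < 3 * m := by
    by_contra hcon
    push Not at hcon
    have hmod := Nat.mod_lt b1 hm0
    have h1 : 2 * m + b1 % m ∈ S := hlow _ (by omega) (by omega)
    apply hb1S
    apply up_mem S m hmS h1 (by omega)
    rw [mul_comm 2 m, Nat.mul_add_mod, Nat.mod_mod]
  have hsum2 : ∀ x, 2 * m ≤ x → x + 2 ≤ 2 * m + 2 * q →
      ∃ u v, u < q ∧ v < q ∧ (m + u) + (m + v) = x := by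
    intro x hx1 hx2
    rcases Nat.lt_or_ge (x - 2 * m) q with h | h
    · exact ⟨x - 2 * m, 0, h, by omega, by omega⟩
    · exact ⟨q - 1, x - 2 * m - (q - 1), by omega, by omega, by omega⟩
  have hb1q : 2 * m + 2 * q ≤ b1 + 1 := by
    by_contra hcon
    obtain ⟨u, v, hu, hv, huv⟩ := hsum2 b1 (by omega) (by omega)
    apply hb1S
    rw [← huv]
    exact S.add_mem (hQS u hu) (hQS v hv)
  have hnb : nb S b1 ≤ q + (b1 - (2 * m + 2 * q - 1)) := by
    unfold nb
    have hsub : (range b1).filter (fun a => IsMinGen S a) ⊆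
        (range q).image (fun u => m + u) ∪ Ico (2 * m + 2 * q - 1) b1 := by
      intro a ha
      rw [mem_filter, mem_range] at ha
      obtain ⟨hab, hg⟩ := ha
      have ham := gen_ge S m hmin hg
      rw [mem_union, mem_image, mem_Ico]
      rcases Nat.lt_or_ge a (2 * m) with h | h
      · left
        refine ⟨a - m, ?_, by omega⟩
        have h2 : a - m ∈ Q S m := by
          rw [mem_Q]
          refine ⟨by omega, ?_⟩
          rw [show m + (a - m) = a by omega]
          exact hg.1
        rw [hQr] at h2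
        exact h2
      · right
        refine ⟨?_, hab⟩
        by_contra hcon
        obtain ⟨u, v, hu, hv, huv⟩ := hsum2 a h (by omega)
        exact hg.2.2 ⟨m + u, hQS u hu, m + v, hQS v hv, by omega, by omega, huv⟩
    have h2 := (card_le_card hsub).trans (card_union_le _ _)
    have h3 : ((range q).image (fun u => m + u)).card ≤ q := by
      refine card_image_le.trans ?_
      rw [card_range]
    rw [Nat.card_Ico] at h2
    omega
  have hb1l := hl b1 hb1G
  have hb1eq : b1 + 1 = 3 * m := by omega
  have hmid : ∀ x, 2 * m ≤ x → x + 2 ≤ 3 * m → x ∈ S := fun x h1 h2 => hlow x h1 (by omega)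
  have hge : ∀ b ∈ G2, 3 * m ≤ b + 1 := by
    intro b hb
    have := hb1min b hb
    omega
  refine ⟨fun hq2 => ⟨by omega, ?_⟩, fun hq1' => ?_⟩
  · have hm1 : m + 1 ∈ S := hQS 1 (by omega)
    have hall : ∀ n, 3 * m ≤ n → n ∈ S := by
      intro n hn
      have hmod := Nat.mod_lt n hm0
      have h1 : 3 * m + n % m ∈ S := by
        rcases Nat.lt_or_ge (n % m + 1) m with h | h
        · have h2 := S.add_mem hmS (hmid (2 * m + n % m) (by omega) (by omega))
          rw [show m + (2 * m + n % m) = 3 * m + n % m by omega] at h2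
          exact h2
        · have h2 := S.add_mem hm1 (hmid (3 * m - 2) (by omega) (by omega))
          rw [show m + 1 + (3 * m - 2) = 3 * m + n % m by omega] at h2
          exact h2
      apply up_mem S m hmS h1
      · have hdm := Nat.div_add_mod n m
        have hd1 : 3 ≤ n / m := by
          rw [Nat.le_div_iff_mul_le hm0]
          omega
        have h4 : m * 3 ≤ m * (n / m) := Nat.mul_le_mul_left _ hd1
        omega
      · rw [mul_comm 3 m, Nat.mul_add_mod, Nat.mod_mod]
    have hsub : G2 ⊆ {3 * m - 1} := by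
      intro b hb
      have h1 := hge b hb
      have h2 : b < 3 * m := by
        by_contra hcon
        exact ((hG2 b).1 hb).1 (hall b (by omega))
      rw [mem_singleton]
      omega
    have := card_le_card hsub
    rwa [card_singleton] at this
  · rcases Nat.lt_or_ge 1 (P S m).card with hl2 | hl2
    · left
      have hall : ∀ n, 4 * m ≤ n → n ∈ S := by
        intro n hn
        have hmod := Nat.mod_lt n hm0
        have h1 : 4 * m + n % m ∈ S := by
          rcases Nat.lt_or_ge (n % m + 1) m with h | h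
          · have h2 := S.add_mem (hmid (2 * m) (by omega) (by omega))
              (hmid (2 * m + n % m) (by omega) (by omega))
            rw [show 2 * m + (2 * m + n % m) = 4 * m + n % m by omega] at h2
            exact h2
          · have h2 := S.add_mem (hmid (2 * m + 1) (by omega) (by omega))
              (hmid (3 * m - 2) (by omega) (by omega))
            rw [show 2 * m + 1 + (3 * m - 2) = 4 * m + n % m by omega] at h2
            exact h2
        apply up_mem S m hmS h1
        · have hdm := Nat.div_add_mod n m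
          have hd1 : 4 ≤ n / m := by
            rw [Nat.le_div_iff_mul_le hm0]
            omega
          have h4 : m * 4 ≤ m * (n / m) := Nat.mul_le_mul_left _ hd1
          omega
        · rw [mul_comm 4 m, Nat.mul_add_mod, Nat.mod_mod]
      have hsub : G2 ⊆ {3 * m - 1, 4 * m - 1} := by
        intro b hb
        have h1 := hge b hb
        have hbS := ((hG2 b).1 hb).1
        have h2 : b < 4 * m := by
          by_contra hcon
          exact hbS (hall b (by omega))
        have h3 : ¬ (3 * m ≤ b ∧ b + 2 ≤ 4 * m) := by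
          rintro ⟨h4, h5⟩
          apply hbS
          have h6 := S.add_mem hmS (hmid (b - m) (by omega) (by omega))
          rwa [show m + (b - m) = b by omega] at h6
        rw [mem_insert, mem_singleton]
        omega
      refine (card_le_card hsub).trans ?_
      exact card_le_two
    · right
      exact hl2

end Pool.Agent.KS6_62.Ew
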