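import Pool.Agent.KS6_62.Ew.Core

set_option autoImplicit false

namespace Pool.Agent.KS6_62.Ew

open Finset Classical
open Pool.Agent.Results.MP_7689c7_co.EffectiveWeightBound (IsMinGen genus ew nb P Q W nb_mono
  first_elems card_QP mul_mem_S gen_inj up_mem gen_ge low_gens card_X q_le)

/-- The count of the gaps and the bound for the sum over the gaps. -/
theorem decomp (S : AddSubmonoid ℕ) (m : ℕ) (hmS : m ∈ S)
    (hmin : ∀ x, 0 < x → x < m → x ∉ S) (hm0 : 0 < m) (G : Finset ℕ) (hG : ∀ b, b ∈ G ↔ b ∉ S) :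
    G.card + 1 = (Q S m).card + (G.filter (fun b => 2 * m < b)).card + 2 * (P S m).card ∧
    ∑ b ∈ G, nb S b + ∑ c ∈ P S m, ab S m c ≤ (P S m).card * (Q S m).card +
      ∑ b ∈ G.filter (fun b => 2 * m < b), nb S b := by
  set G2 := G.filter (fun b => 2 * m < b) with hG2
  have hQP := card_QP S m
  have e : G.filter (fun b => ¬ b < m) = (P S m).image (fun u => m + u) ∪ G2 := by
    ext x
    simp only [mem_filter, hG, mem_union, mem_image, mem_P, hG2]
    constructor
    · rintro ⟨hx, hxm⟩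
      rcases Nat.lt_or_ge (2 * m) x with h | h
      · exact Or.inr ⟨hx, h⟩
      · left
        have hx2 : x ≠ 2 * m := by
          rintro rfl
          apply hx
          rw [two_mul]
          exact S.add_mem hmS hmS
        refine ⟨x - m, ⟨by omega, ?_⟩, by omega⟩
        have e : m + (x - m) = x := by omega
        rw [e]
        exact hx
    · rintro (⟨u, ⟨hu, hu2⟩, rfl⟩ | ⟨hx, h⟩)
      · exact ⟨hu2, by omega⟩
      · exact ⟨hx, by omega⟩
  have edis : Disjoint ((P S m).image (fun u => m + u)) G2 := by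
    rw [disjoint_left]
    intro x hx hx2
    obtain ⟨u, hu, rfl⟩ := mem_image.1 hx
    rw [mem_P] at hu
    simp only [hG2, mem_filter] at hx2
    omega
  refine ⟨?_, ?_⟩
  · have h1 : G.card = (G.filter (fun b => b < m)).card + (G.filter (fun b => ¬ b < m)).card :=
      (card_filter_add_card_filter_not _).symm
    have h2 : (G.filter (fun b => b < m)).card + 1 = m := by
      have e : insert 0 (G.filter (fun b => b < m)) = range m := by
        ext x
        simp only [mem_insert, mem_filter, mem_range, hG]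
        constructor
        · rintro (h | h)
          · omega
          · exact h.2
        · intro h
          rcases Nat.eq_zero_or_pos x with h0 | h0
          · exact Or.inl h0
          · exact Or.inr ⟨hmin x h0 h, h⟩
      have h3 : (insert 0 (G.filter (fun b => b < m))).card = m := by rw [e, card_range]
      rw [card_insert_of_notMem] at h3
      · exact h3
      · simp only [mem_filter, hG, not_and]
        intro h
        exact absurd S.zero_mem h
    have h4 : (G.filter (fun b => ¬ b < m)).card = (P S m).card + G2.card := by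
      rw [e, card_union_of_disjoint edis,
        card_image_of_injective _ (fun a b h => by simpa using h)]
    omega
  · have hs0 : ∑ b ∈ G.filter (fun b => b < m), nb S b = 0 := by
      apply sum_eq_zero
      intro b hb
      simp only [mem_filter] at hb
      unfold nb
      rw [card_eq_zero, filter_eq_empty_iff]
      intro a ha hg
      have := gen_ge S m hmin hg
      rw [mem_range] at ha
      omega
    have hs1 : ∑ b ∈ G.filter (fun b => ¬ b < m), nb S b =
        ∑ u ∈ P S m, nb S (m + u) + ∑ b ∈ G2, nb S b := by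
      rw [e, sum_union edis, sum_image (fun a _ b _ h => by simpa using h)]
    have hs : ∑ b ∈ G, nb S b =
        ∑ b ∈ G.filter (fun b => b < m), nb S b + ∑ b ∈ G.filter (fun b => ¬ b < m), nb S b :=
      (sum_filter_add_sum_filter_not _ _ _).symm
    have hq1 : ∀ u ∈ P S m, nb S (m + u) ≤ ((Q S m).filter (fun x => x < u)).card := by
      intro u hu
      rw [mem_P] at hu
      unfold nb
      apply card_le_card_of_injOn (fun a => a - m)
      · intro a ha
        simp only [coe_filter, mem_range, Set.mem_ofPred_eq] at ha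
        have h3 := gen_ge S m hmin ha.2
        simp only [coe_filter, Set.mem_ofPred_eq, mem_Q]
        refine ⟨⟨by omega, ?_⟩, by omega⟩
        have e : m + (a - m) = a := by omega
        rw [e]
        exact ha.2.1
      · intro a ha a' ha' h
        simp only [coe_filter, mem_range, Set.mem_ofPred_eq] at ha ha'
        have h3 := gen_ge S m hmin ha.2
        have h3' := gen_ge S m hmin ha'.2
        simp only at h
        omega
    have hq2 : ∑ u ∈ P S m, nb S (m + u) + ∑ c ∈ P S m, ab S m c ≤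
        (P S m).card * (Q S m).card := by
      rw [← sum_add_distrib]
      have h3 : ∀ c ∈ P S m, nb S (m + c) + ab S m c ≤ (Q S m).card := by
        intro c hc
        unfold ab
        have h4 := hq1 c hc
        have h5 : ((Q S m).filter (fun u => u < c)).card ≤ (Q S m).card :=
          card_le_card (filter_subset _ _)
        omega
      refine (sum_le_sum h3).trans ?_
      rw [sum_const, smul_eq_mul]
    omega

/-- The numerical semigroup `{0} ∪ [c, d] ∪ [2c, ∞)`. -/
def semi (c d : ℕ) : AddSubmonoid ℕ where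
  carrier := {x | x = 0 ∨ (c ≤ x ∧ x ≤ d) ∨ 2 * c ≤ x}
  zero_mem' := Or.inl rfl
  add_mem' := by
    rintro x y (hx | hx | hx) (hy | hy | hy)
    · exact Or.inl (by omega)
    · exact Or.inr (Or.inl (by omega))
    · exact Or.inr (Or.inr (by omega))
    · exact Or.inr (Or.inl (by omega))
    · exact Or.inr (Or.inr (by omega))
    · exact Or.inr (Or.inr (by omega))
    · exact Or.inr (Or.inr (by omega))
    · exact Or.inr (Or.inr (by omega))
    · exact Or.inr (Or.inr (by omega))

theorem mem_semi {c d x : ℕ} : x ∈ semi c d ↔ x = 0 ∨ (c ≤ x ∧ x ≤ d) ∨ 2 * c ≤ x := Iff.rfl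

/-- The parameters of the extremal semigroups of genus `g`. -/
def Par (g : ℕ) (η : ℤ) (c d : ℕ) : Prop :=
  |η| ≤ 2 ∧ 4 * (c : ℤ) = 3 * g + 3 + η ∧ 4 * (d : ℤ) = 5 * g + 1 + 3 * η

/-- An extremal semigroup is one of the known ones. -/
theorem extremal_eq (g : ℕ) (hg : 10 ≤ g) (S : AddSubmonoid ℕ) (hfin : {b : ℕ | b ∉ S}.Finite)
    (hgen : genus S = g) (hew : ew S = (g + 1) ^ 2 / 8) :
    ∃ (η : ℤ) (c d : ℕ), Par g η c d ∧ S = semi c d := by
  have hex : ∃ x, 0 < x ∧ x ∈ S := by
    by_contra hne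
    push Not at hne
    apply Set.infinite_of_injective_forall_mem (f := fun n : ℕ => n + 1)
      (fun a b h => by simpa using h) (s := {b : ℕ | b ∉ S}) (fun n => hne (n + 1) (by omega)) hfin
  set m := Nat.find hex with hm
  obtain ⟨hm0, hmS⟩ := Nat.find_spec hex
  rw [← hm] at hm0 hmS
  have hmin : ∀ x, 0 < x → x < m → x ∉ S := by
    intro x hx0 hxm hxS
    exact Nat.find_min hex hxm ⟨hx0, hxS⟩
  set G := hfin.toFinset with hGd
  have hG : ∀ b, b ∈ G ↔ b ∉ S := by
    intro b
    simp [hGd]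
  have hgenG : G.card = g := by
    rw [← hgen]
    unfold genus
    rw [hGd, Set.ncard_eq_toFinset_card _ hfin]
  have hle : ew S ≤ ∑ b ∈ G, nb S b := by
    unfold ew
    set E : Finset (ℕ × ℕ) := G.biUnion (fun b =>
      ((range b).filter (fun a => IsMinGen S a)).image (fun a => (a, b))) with hE
    have h1 : {p : ℕ × ℕ | IsMinGen S p.1 ∧ p.2 ∉ S ∧ p.1 < p.2} ⊆ (E : Set (ℕ × ℕ)) := by
      rintro ⟨a, b⟩ ⟨h1, h2, h3⟩
      simp only [hE, coe_biUnion, Set.mem_iUnion, mem_coe, mem_image, mem_filter, mem_range]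
      exact ⟨b, (hG b).2 h2, a, ⟨h3, h1⟩, rfl⟩
    refine (Set.ncard_le_ncard h1 E.finite_toSet).trans ?_
    rw [Set.ncard_coe_finset]
    refine card_biUnion_le.trans ?_
    apply sum_le_sum
    intro b _
    exact card_image_le
  obtain ⟨hd1, hd2⟩ := decomp S m hmS hmin hm0 G hG
  set G2 := G.filter (fun b => 2 * m < b) with hG2d
  have hG2 : ∀ b, b ∈ G2 ↔ b ∉ S ∧ 2 * m < b := by
    intro b
    simp only [hG2d, mem_filter, hG]
  have hQP := card_QP S m
  have hz := zero_mem_Q S m hm0 hmS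
  have hq1 : 1 ≤ (Q S m).card := card_pos.2 ⟨0, hz⟩
  -- the upper bound `l (q + Y)` of the library
  have hup : ∑ b ∈ G2, nb S b ≤ (P S m).card * G2.card + ∑ c ∈ P S m, ab S m c :=
    Pool.Agent.Results.MP_7689c7_co.EffectiveWeightBound.high_gaps S m hm0 hmS hmin G2
      (fun b hb => (hG2 b).1 hb)
  obtain ⟨l, hl⟩ : ∃ l, l = (P S m).card := ⟨_, rfl⟩
  obtain ⟨q, hq⟩ : ∃ q, q = (Q S m).card := ⟨_, rfl⟩
  obtain ⟨Y, hY⟩ : ∃ Y, Y = G2.card := ⟨_, rfl⟩
  obtain ⟨A, hA⟩ : ∃ A, A = ∑ c ∈ P S m, ab S m c := ⟨_, rfl⟩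
  rw [← hl, ← hq, ← hA] at hd2
  rw [← hl, ← hY, ← hA] at hup
  rw [← hl, ← hq, ← hY, hgenG] at hd1
  rw [← hl, ← hq] at hQP
  rw [← hq] at hq1
  have hk : ew S ≤ l * q + l * Y := by omega
  -- `η = q + Y - 2 l` is small
  have h8 : (g + 1) ^ 2 ≤ 8 * ew S + 7 := by
    rw [hew]
    omega
  have hlk : (g + 1) ^ 2 ≤ 8 * (l * q + l * Y) + 7 := by omega
  have hη : ((q : ℤ) + Y - 2 * l) ^ 2 ≤ 7 := by
    rw [hd1] at hlk
    zify at hlk
    nlinarith
  have hη1 : (q : ℤ) + Y - 2 * l ≤ 2 := by nlinarith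
  have hη2 : -2 ≤ (q : ℤ) + Y - 2 * l := by nlinarith
  have hmax : l * q + l * Y ≤ (g + 1) ^ 2 / 8 := by
    rw [Nat.le_div_iff_mul_le (by norm_num), hd1]
    zify
    nlinarith [sq_nonneg ((q : ℤ) + Y - 2 * l)]
  -- equality in all inequalities
  have hY0 : Y = 0 := by
    by_contra hYne
    have hne : G2.Nonempty := card_pos.1 (by omega)
    have hstar : ∑ c ∈ P S m, ab S m c + (P S m).card * G2.card ≤ ∑ b ∈ G2, nb S b := by
      rw [← hl, ← hY, ← hA]
      omega
    rcases eq_struct S m hm0 hmS hmin G2 hG2 hne hstar with ⟨h0, hnb⟩ | ⟨T, p, h1, h2, h3, h4, h5, h6⟩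
    · obtain ⟨c1, c2⟩ := case_one S m hm0 hmS hmin G2 hG2 hne h0 hnb
      rw [← hl, ← hq, ← hY] at c1 c2
      rcases Nat.lt_or_ge q 2 with h | h
      · rcases c2 (by omega) with h' | h' <;> omega
      · obtain ⟨h', h''⟩ := c1 h
        omega
    · have := case_two S m hm0 hmS T p h1 h2 h3 h4 h5 h6
      rw [← hl] at this
      omega
  subst hY0
  have hG2e : G2 = ∅ := card_eq_zero.1 hY.symm
  rw [hG2e, sum_empty] at hd2
  have hA0 : A = 0 := by omega
  have h0 : ∀ c ∈ P S m, ab S m c = 0 := by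
    intro c hc
    exact (sum_eq_zero_iff.1 (hA.symm.trans hA0)) c hc
  have hQr := Q_eq_range S m h0
  rw [← hq] at hQr
  refine ⟨(q : ℤ) - 2 * l, m, m + q - 1, ⟨?_, ?_, ?_⟩, ?_⟩
  · rw [abs_le]
    constructor <;> omega
  · push_cast
    omega
  · have : ((m + q - 1 : ℕ) : ℤ) = (m : ℤ) + q - 1 := by omega
    rw [this]
    omega
  · ext x
    rw [mem_semi]
    constructor
    · intro hx
      rcases Nat.eq_zero_or_pos x with h | h
      · exact Or.inl h
      · have hxm : m ≤ x := by
          by_contra hcon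
          exact hmin x h (by omega) hx
        rcases Nat.lt_or_ge x (2 * m) with h2 | h2
        · right
          left
          have h3 : x - m ∈ Q S m := by
            rw [mem_Q]
            refine ⟨by omega, ?_⟩
            rw [show m + (x - m) = x by omega]
            exact hx
          rw [hQr, mem_range] at h3
          omega
        · exact Or.inr (Or.inr h2)
    · rintro (h | ⟨h1, h2⟩ | h)
      · rw [h]
        exact S.zero_mem
      · have h3 : x - m ∈ Q S m := by
          rw [hQr, mem_range]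
          omega
        have h4 := ((mem_Q S m).1 h3).2
        rwa [show m + (x - m) = x by omega] at h4
      · by_contra hx
        have hx2 : x ≠ 2 * m := by
          rintro rfl
          apply hx
          rw [two_mul]
          exact S.add_mem hmS hmS
        have : x ∈ G2 := (hG2 x).2 ⟨hx, by omega⟩
        rw [hG2e] at this
        simp at this

theorem gaps_semi {c d : ℕ} (h1 : 1 ≤ c) (h2 : c ≤ d) (h3 : d < 2 * c) :
    {b : ℕ | b ∉ semi c d} = ↑(Ico 1 c ∪ Ico (d + 1) (2 * c)) := by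
  ext b
  rw [mem_coe, mem_union, mem_Ico, mem_Ico]
  change ¬ (b ∈ semi c d) ↔ _
  rw [mem_semi]
  omega

theorem genus_semi {c d : ℕ} (h1 : 1 ≤ c) (h2 : c ≤ d) (h3 : d < 2 * c) :
    genus (semi c d) + d + 2 = 3 * c := by
  unfold genus
  rw [gaps_semi h1 h2 h3, Set.ncard_coe_finset, card_union_of_disjoint, Nat.card_Ico, Nat.card_Ico]
  · omega
  · rw [disjoint_left]
    intro x hx hx2
    rw [mem_Ico] at hx hx2
    omega

theorem ew_semi_ge {c d : ℕ} (h1 : 1 ≤ c) (h3 : d < 2 * c) :
    (d + 1 - c) * (2 * c - (d + 1)) ≤ ew (semi c d) := by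
  unfold ew
  have hsub : (↑(Icc c d ×ˢ Ico (d + 1) (2 * c)) : Set (ℕ × ℕ)) ⊆
      {p : ℕ × ℕ | IsMinGen (semi c d) p.1 ∧ p.2 ∉ semi c d ∧ p.1 < p.2} := by
    rintro ⟨a, b⟩ hab
    rw [mem_coe, mem_product, mem_Icc, mem_Ico] at hab
    obtain ⟨⟨ha1, ha2⟩, hb1, hb2⟩ := hab
    simp only at ha1 ha2 hb1 hb2
    refine ⟨⟨?_, ?_, ?_⟩, ?_, ?_⟩
    · exact mem_semi.2 (Or.inr (Or.inl ⟨ha1, ha2⟩))
    · simp only
      omega
    · rintro ⟨x, hx, y, hy, hx0, hy0, hxy⟩
      simp only at hxy
      rw [mem_semi] at hx hy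
      omega
    · simp only
      rw [mem_semi]
      omega
    · simp only
      omega
  have hfin : {p : ℕ × ℕ | IsMinGen (semi c d) p.1 ∧ p.2 ∉ semi c d ∧ p.1 < p.2}.Finite := by
    apply (range (2 * c) ×ˢ range (2 * c)).finite_toSet.subset
    rintro ⟨a, b⟩ ⟨-, h4, h5⟩
    simp only at h4 h5
    rw [mem_semi] at h4
    rw [mem_coe, mem_product, mem_range, mem_range]
    simp only
    omega
  have h5 := Set.ncard_le_ncard hsub hfin
  rw [Set.ncard_coe_finset, card_product, Nat.card_Icc, Nat.card_Ico] at h5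
  exact h5

/-- The known semigroups are extremal. -/
theorem extremal_semi (g : ℕ) (hg : 10 ≤ g) (η : ℤ) (c d : ℕ) (h : Par g η c d) :
    {b : ℕ | b ∉ semi c d}.Finite ∧ genus (semi c d) = g ∧ ew (semi c d) = (g + 1) ^ 2 / 8 := by
  obtain ⟨h1, h2, h3⟩ := h
  rw [abs_le] at h1
  have hc1 : 1 ≤ c := by omega
  have hcd : c ≤ d := by omega
  have hd2 : d < 2 * c := by omega
  have hfin : {b : ℕ | b ∉ semi c d}.Finite := by
    rw [gaps_semi hc1 hcd hd2]
    exact finite_toSet _
  have hgen : genus (semi c d) = g := by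
    have := genus_semi hc1 hcd hd2
    omega
  refine ⟨hfin, hgen, le_antisymm ?_ ?_⟩
  · have := Pool.Agent.Results.MP_7689c7_co.EffectiveWeightBound.result (semi c d) hfin
    rwa [hgen] at this
  · refine le_trans ?_ (ew_semi_ge hc1 hd2)
    obtain ⟨q, hq⟩ : ∃ q, q = d + 1 - c := ⟨_, rfl⟩
    obtain ⟨l, hl⟩ : ∃ l, l = 2 * c - (d + 1) := ⟨_, rfl⟩
    rw [← hq, ← hl]
    have e1 : 2 * (q : ℤ) = g + 1 + η := by omega
    have e2 : 4 * (l : ℤ) = g + 1 - η := by omega
    have e3 : 8 * ((q : ℤ) * l) = (g + 1) ^ 2 - η ^ 2 := by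
      have : 8 * ((q : ℤ) * l) = (2 * q) * (4 * l) := by ring
      rw [this, e1, e2]
      ring
    have e4 : η ^ 2 ≤ 4 := by nlinarith
    have e5 : (g + 1) ^ 2 < 8 * (q * l + 1) := by
      zify
      nlinarith
    have e6 : (g + 1) ^ 2 / 8 < q * l + 1 := by
      rw [Nat.div_lt_iff_lt_mul (by norm_num)]
      omega
    omega

theorem extremal_iff (g : ℕ) (hg : 10 ≤ g) (S : AddSubmonoid ℕ) :
    ({b : ℕ | b ∉ S}.Finite ∧ genus S = g ∧ ew S = (g + 1) ^ 2 / 8) ↔
      ∃ (η : ℤ) (c d : ℕ), Par g η c d ∧ S = semi c d := by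
  constructor
  · rintro ⟨h1, h2, h3⟩
    exact extremal_eq g hg S h1 h2 h3
  · rintro ⟨η, c, d, h, rfl⟩
    exact extremal_semi g hg η c d h

/-- The number of the extremal semigroups. -/
theorem extremal_count (g : ℕ) (hg : 10 ≤ g) :
    {S : AddSubmonoid ℕ | {b : ℕ | b ∉ S}.Finite ∧ genus S = g ∧
      ew S = (g + 1) ^ 2 / 8}.ncard = if g % 4 = 1 then 2 else 1 := by
  have hset : {S : AddSubmonoid ℕ | {b : ℕ | b ∉ S}.Finite ∧ genus S = g ∧
      ew S = (g + 1) ^ 2 / 8} = {S | ∃ (η : ℤ) (c d : ℕ), Par g η c d ∧ S = semi c d} := by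
    ext S
    exact extremal_iff g hg S
  rw [hset]
  split_ifs with h
  · obtain ⟨k, hk⟩ : ∃ k, g = 4 * k + 1 := ⟨g / 4, by omega⟩
    have e : {S : AddSubmonoid ℕ | ∃ (η : ℤ) (c d : ℕ), Par g η c d ∧ S = semi c d} =
        {semi (3 * k + 1) (5 * k), semi (3 * k + 2) (5 * k + 3)} := by
      ext S
      simp only [Set.mem_insert_iff, Set.mem_singleton_iff]
      change (∃ (η : ℤ) (c d : ℕ), Par g η c d ∧ S = semi c d) ↔ _
      constructor
      · rintro ⟨η, c, d, ⟨h1, h2, h3⟩, rfl⟩
        rw [abs_le] at h1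
        have : η = -2 ∨ η = 2 := by omega
        rcases this with rfl | rfl
        · left
          rw [show c = 3 * k + 1 by omega, show d = 5 * k by omega]
        · right
          rw [show c = 3 * k + 2 by omega, show d = 5 * k + 3 by omega]
      · rintro (rfl | rfl)
        · refine ⟨-2, _, _, ⟨by norm_num, ?_, ?_⟩, rfl⟩ <;> push_cast <;> omega
        · refine ⟨2, _, _, ⟨by norm_num, ?_, ?_⟩, rfl⟩ <;> push_cast <;> omega
    rw [e, Set.ncard_pair]
    intro he
    have h1 : 3 * k + 1 ∈ semi (3 * k + 2) (5 * k + 3) := by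
      rw [← he, mem_semi]
      omega
    rw [mem_semi] at h1
    omega
  · obtain ⟨η, c, d, hP⟩ : ∃ (η : ℤ) (c d : ℕ), Par g η c d := by
      obtain ⟨k, hk⟩ : ∃ k, k = g / 4 := ⟨_, rfl⟩
      have h4 : g % 4 = 0 ∨ g % 4 = 2 ∨ g % 4 = 3 := by omega
      rcases h4 with h4 | h4 | h4
      · refine ⟨1, 3 * k + 1, 5 * k + 1, by norm_num, ?_, ?_⟩ <;> push_cast <;> omega
      · refine ⟨-1, 3 * k + 2, 5 * k + 2, by norm_num, ?_, ?_⟩ <;> push_cast <;> omega
      · refine ⟨0, 3 * k + 3, 5 * k + 4, by norm_num, ?_, ?_⟩ <;> push_cast <;> omega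
    have e : {S : AddSubmonoid ℕ | ∃ (η : ℤ) (c d : ℕ), Par g η c d ∧ S = semi c d} =
        {semi c d} := by
      ext S
      rw [Set.mem_singleton_iff]
      change (∃ (η : ℤ) (c d : ℕ), Par g η c d ∧ S = semi c d) ↔ _
      constructor
      · rintro ⟨η', c', d', ⟨h1, h2, h3⟩, rfl⟩
        obtain ⟨g1, g2, g3⟩ := hP
        rw [abs_le] at h1 g1
        have h6 : (c : ℤ) = c' ∨ (c : ℤ) = c' + 1 ∨ (c : ℤ) = c' - 1 := by omega
        have h5 : η' = η := by
          rcases h6 with h6 | h6 | h6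
          · omega
          · have h7 : η = 2 := by omega
            subst h7
            omega
          · have h7 : η = -2 := by omega
            subst h7
            omega
        subst h5
        rw [show c = c' by omega, show d = d' by omega]
      · rintro rfl
        exact ⟨η, c, d, hP, rfl⟩
    rw [e, Set.ncard_singleton]

end Pool.Agent.KS6_62.Ew
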